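import Pool.Agent.H29.NF.A
import Pool.Agent.H94.NF.DENN

/-! Module IRRN of project NF (helper19): the polynomials of the family are irreducible. -/

set_option autoImplicit false

namespace Pool.NF.H19

open Polynomial NumberField IsDedekindDomain Pool.HYP Pool.TOW Pool.AVS Pool.T1

/-- There is a prime above two. -/
theorem two_prime (K : Type) [Field K] [NumberField K] :
    ∃ P : HeightOneSpectrum (𝓞 K), (2 : 𝓞 K) ∈ P.asIdeal := by
  have h2 : ¬ IsUnit (2 : 𝓞 K) := by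
    intro h
    have h1 : IsUnit (algebraMap ℤ (𝓞 K) 2) := by
      rw [show algebraMap ℤ (𝓞 K) 2 = 2 by simp]
      exact h
    have h3 : (algebraMap ℤ (𝓞 K)).IsIntegral := algebraMap_isIntegral_iff.2 inferInstance
    have h4 := h3.isLocalHom (FaithfulSMul.algebraMap_injective ℤ (𝓞 K))
    have h5 : IsUnit (2 : ℤ) := h4.map_nonunit 2 h1
    have h6 := Int.isUnit_iff.1 h5
    omega
  have h3 : Ideal.span {(2 : 𝓞 K)} ≠ ⊤ := fun h => h2 (Ideal.span_singleton_eq_top.1 h)
  obtain ⟨M, hM, hle⟩ := Ideal.exists_le_maximal _ h3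
  have h4 : (2 : 𝓞 K) ∈ M := hle (Ideal.mem_span_singleton_self _)
  refine ⟨⟨M, hM.isPrime, ?_⟩, h4⟩
  rintro rfl
  rw [Ideal.mem_bot] at h4
  exact two_ne_zero h4

theorem irrn : IRRNStmt := by
  intro K _ _ D Y hD f hf
  obtain ⟨P, hP⟩ := two_prime K
  have hP' := hD.2.2.2 P (Or.inl hP)
  exact irr_of_md P hf.1 (hD.2.2.1 P hP').2.2 (hf.2.2.2.2 P hP')

end Pool.NF.H19
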